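import Pool.Agent.ABCP.Stmts

/-!
# ABCP, row RK1: one linear form
-/

set_option autoImplicit false

namespace Pool.Agent.ABCP.H94

open Matrix
open Pool.Agent.ABC3 (St sdeg xc mu mu_def xc_comm xc_sq mu_comm mu_deg HasDeg HomV kr)

section
variable {K : Type} [Field K] {ι : Type} [Fintype ι] [DecidableEq ι]

/-- the partial linear form -/
def qS (w : ι → K) (S : Finset ι) : Matrix (St ι) (St ι) K := ∑ c ∈ S, w c • xc K c

/-- `v` is in `T(S)` -/
def Supp (S : Finset ι) (v : St ι → K) : Prop := ∀ s, v s ≠ 0 → ∀ c, s c = true → c ∈ S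

theorem xc_mulVec (a : ι) (v : St ι → K) (s : St ι) :
    (xc K a).mulVec v s = if s a = true then v (Function.update s a false) else 0 := by
  unfold Matrix.mulVec dotProduct xc
  by_cases h : s a = true
  · rw [if_pos h, Finset.sum_eq_single (Function.update s a false)]
    · have h1 : Function.update (Function.update s a false) a true = s := by
        rw [Function.update_idem, ← h, Function.update_eq_self]
      simp [h1]
    · intro b _ hb
      by_cases h2 : b a = false ∧ s = Function.update b a true
      · exfalso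
        apply hb
        rw [h2.2, Function.update_idem, ← h2.1, Function.update_eq_self]
      · simp [h2]
    · intro h'
      exact absurd (Finset.mem_univ _) h'
  · rw [if_neg h]
    apply Finset.sum_eq_zero
    intro b _
    have : ¬ (b a = false ∧ s = Function.update b a true) := by
      rintro ⟨-, h2⟩
      apply h
      rw [h2]
      simp
    simp [this]

theorem sdeg_update (s : St ι) (a : ι) (h : s a = false) :
    sdeg (Function.update s a true) = sdeg s + 1 := by
  unfold sdeg
  have : (Finset.univ.filter (fun d => Function.update s a true d = true)) =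
      insert a (Finset.univ.filter (fun d => s d = true)) := by
    ext d
    by_cases hd : d = a
    · subst hd; simp
    · simp [hd]
  rw [this, Finset.card_insert_of_notMem (by simp [h])]
  push_cast
  ring

/-- the two parts of a vector -/
def p0 (a : ι) (v : St ι → K) : St ι → K := fun s => if s a = true then 0 else v s

def p1 (a : ι) (v : St ι → K) : St ι → K :=
  fun s => if s a = true then 0 else v (Function.update s a true)

theorem split (a : ι) (v : St ι → K) : v = p0 a v + (xc K a).mulVec (p1 a v) := by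
  ext s
  rw [Pi.add_apply, xc_mulVec]
  unfold p0 p1
  by_cases h : s a = true
  · rw [if_pos h, if_pos h, Function.update_self, if_neg (by simp), Function.update_idem, ← h,
      Function.update_eq_self, zero_add]
  · rw [if_neg h, if_neg h, add_zero]

theorem uniq (a : ι) (S : Finset ι) (ha : a ∉ S) (u v : St ι → K) (hu : Supp S u)
    (hv : Supp S v) (h : u + (xc K a).mulVec v = 0) : u = 0 ∧ v = 0 := by
  have hu0 : ∀ s, s a = true → u s = 0 := fun s hs => by
    by_contra hne
    exact ha (hu s hne a hs)
  have hv0 : ∀ s, s a = true → v s = 0 := fun s hs => by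
    by_contra hne
    exact ha (hv s hne a hs)
  constructor
  · ext s
    by_cases hs : s a = true
    · exact hu0 s hs
    · have := congrFun h s
      rw [Pi.add_apply, xc_mulVec, if_neg hs, add_zero] at this
      exact this
  · ext s
    by_cases hs : s a = true
    · exact hv0 s hs
    · have h1 := congrFun h (Function.update s a true)
      rw [Pi.add_apply, xc_mulVec, if_pos (by simp), hu0 _ (by simp), Function.update_idem,
        zero_add] at h1
      have h2 : s a = false := by simpa using hs
      rw [← h2, Function.update_eq_self] at h1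
      exact h1

theorem supp_p0 (a : ι) (S : Finset ι) (v : St ι → K) (hv : Supp (insert a S) v) :
    Supp S (p0 a v) := by
  intro s hs c hc
  unfold p0 at hs
  by_cases h : s a = true
  · rw [if_pos h] at hs
    exact absurd rfl hs
  · rw [if_neg h] at hs
    rcases Finset.mem_insert.1 (hv s hs c hc) with rfl | h'
    · exact absurd hc h
    · exact h'

theorem supp_p1 (a : ι) (S : Finset ι) (v : St ι → K) (hv : Supp (insert a S) v) :
    Supp S (p1 a v) := by
  intro s hs c hc
  unfold p1 at hs
  by_cases h : s a = true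
  · rw [if_pos h] at hs
    exact absurd rfl hs
  · rw [if_neg h] at hs
    have hca : c ≠ a := by
      rintro rfl
      exact h hc
    rcases Finset.mem_insert.1 (hv _ hs c (by rw [Function.update_of_ne hca]; exact hc)) with
      h' | h'
    · exact absurd h' hca
    · exact h'

theorem supp_xc (a : ι) (S : Finset ι) (ha : a ∈ S) (v : St ι → K) (hv : Supp S v) :
    Supp S ((xc K a).mulVec v) := by
  intro s hs c hc
  rw [xc_mulVec] at hs
  by_cases h : s a = true
  · rw [if_pos h] at hs
    by_cases hca : c = a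
    · rw [hca]
      exact ha
    · exact hv _ hs c (by rw [Function.update_of_ne hca]; exact hc)
  · rw [if_neg h] at hs
    exact absurd rfl hs

theorem supp_add (S : Finset ι) (u v : St ι → K) (hu : Supp S u) (hv : Supp S v) :
    Supp S (u + v) := by
  intro s hs c hc
  by_cases h : u s = 0
  · exact hv s (fun h' => hs (by rw [Pi.add_apply, h, h', add_zero])) c hc
  · exact hu s h c hc

theorem supp_smul (S : Finset ι) (b : K) (v : St ι → K) (hv : Supp S v) : Supp S (b • v) := by
  intro s hs c hc
  exact hv s (fun h' => hs (by rw [Pi.smul_apply, h', smul_zero])) c hc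

theorem supp_zero (S : Finset ι) : Supp S (0 : St ι → K) := fun s hs => absurd rfl hs

theorem supp_mono (S S' : Finset ι) (h : S ⊆ S') (v : St ι → K) (hv : Supp S v) : Supp S' v :=
  fun s hs c hc => h (hv s hs c hc)

theorem qS_mulVec (w : ι → K) (S : Finset ι) (v : St ι → K) :
    (qS w S).mulVec v = ∑ c ∈ S, w c • (xc K c).mulVec v := by
  unfold qS
  rw [Matrix.sum_mulVec]
  exact Finset.sum_congr rfl fun c _ => Matrix.smul_mulVec _ _ _

theorem supp_qS (w : ι → K) (S : Finset ι) (v : St ι → K) (hv : Supp S v) :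
    Supp S ((qS w S).mulVec v) := by
  rw [qS_mulVec]
  have key : ∀ S' ⊆ S, Supp S (∑ c ∈ S', w c • (xc K c).mulVec v) := by
    intro S'
    induction S' using Finset.induction_on with
    | empty =>
      intro _
      rw [Finset.sum_empty]
      exact supp_zero S
    | insert b T hb ih =>
      intro hT
      rw [Finset.sum_insert hb]
      exact supp_add S _ _ (supp_smul S _ _ (supp_xc b S (hT (Finset.mem_insert_self b T)) v hv))
        (ih (fun x hx => hT (Finset.mem_insert_of_mem hx)))
  exact key S (Finset.Subset.refl S)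

theorem supp_pow (w : ι → K) (S : Finset ι) (k : ℕ) (v : St ι → K) (hv : Supp S v) :
    Supp S ((qS w S ^ k).mulVec v) := by
  induction k with
  | zero => rw [pow_zero, Matrix.one_mulVec]; exact hv
  | succ k ih => rw [pow_succ', ← Matrix.mulVec_mulVec]; exact supp_qS w S _ ih

theorem homV_xc (a : ι) (d : ℤ) (v : St ι → K) (hv : HomV sdeg d v) :
    HomV sdeg (d + 1) ((xc K a).mulVec v) := by
  intro s hs
  rw [xc_mulVec] at hs
  by_cases h : s a = true
  · rw [if_pos h] at hs
    have h1 := hv _ hs
    have h2 := sdeg_update (Function.update s a false) a (by simp)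
    rw [Function.update_idem, ← h, Function.update_eq_self] at h2
    omega
  · rw [if_neg h] at hs
    exact absurd rfl hs

theorem homV_add (d : ℤ) (u v : St ι → K) (hu : HomV sdeg d u) (hv : HomV sdeg d v) :
    HomV sdeg d (u + v) := by
  intro s hs
  by_cases h : u s = 0
  · exact hv s (fun h' => hs (by rw [Pi.add_apply, h, h', add_zero]))
  · exact hu s h

theorem homV_smul (d : ℤ) (b : K) (v : St ι → K) (hv : HomV sdeg d v) :
    HomV sdeg d (b • v) := fun s hs => hv s (fun h' => hs (by rw [Pi.smul_apply, h', smul_zero]))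

theorem homV_zero (d : ℤ) : HomV sdeg d (0 : St ι → K) := fun s hs => absurd rfl hs

theorem homV_qS (w : ι → K) (S : Finset ι) (d : ℤ) (v : St ι → K) (hv : HomV sdeg d v) :
    HomV sdeg (d + 1) ((qS w S).mulVec v) := by
  rw [qS_mulVec]
  induction S using Finset.induction_on with
  | empty =>
    rw [Finset.sum_empty]
    exact homV_zero _
  | insert b T hb ih =>
    rw [Finset.sum_insert hb]
    exact homV_add _ _ _ (homV_smul _ _ _ (homV_xc b d v hv)) ih

theorem homV_pow (w : ι → K) (S : Finset ι) (k : ℕ) (d : ℤ) (v : St ι → K)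
    (hv : HomV sdeg d v) : HomV sdeg (d + k) ((qS w S ^ k).mulVec v) := by
  induction k with
  | zero => rw [pow_zero, Matrix.one_mulVec, Nat.cast_zero, add_zero]; exact hv
  | succ k ih =>
    rw [pow_succ', ← Matrix.mulVec_mulVec]
    have := homV_qS w S _ _ ih
    rwa [Nat.cast_succ, ← add_assoc]

theorem homV_p0 (a : ι) (d : ℤ) (v : St ι → K) (hv : HomV sdeg d v) :
    HomV sdeg d (p0 a v) := by
  intro s hs
  unfold p0 at hs
  by_cases h : s a = true
  · rw [if_pos h] at hs
    exact absurd rfl hs
  · rw [if_neg h] at hs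
    exact hv s hs

theorem homV_p1 (a : ι) (d : ℤ) (v : St ι → K) (hv : HomV sdeg d v) :
    HomV sdeg (d - 1) (p1 a v) := by
  intro s hs
  unfold p1 at hs
  by_cases h : s a = true
  · rw [if_pos h] at hs
    exact absurd rfl hs
  · rw [if_neg h] at hs
    have h1 := hv _ hs
    have h2 := sdeg_update s a (by simpa using h)
    omega

theorem neg_zero' (d : ℤ) (hd : d < 0) (v : St ι → K) (hv : HomV sdeg d v) : v = 0 := by
  ext s
  by_contra h
  have h1 := hv s h
  have h2 : 0 ≤ sdeg s := by unfold sdeg; positivity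
  omega

/-- powers of a sum with a square zero element -/
theorem pow_sum {R : Type} [Ring R] (X Y : R) (hc : X * Y = Y * X) (hY : Y * Y = 0) (k : ℕ) :
    (X + Y) ^ k = X ^ k + (k : R) * (Y * X ^ (k - 1)) := by
  have hck : ∀ j : ℕ, X ^ j * Y = Y * X ^ j := fun j => by
    have : Commute X Y := hc
    exact (this.pow_left j)
  induction k with
  | zero => simp
  | succ k ih =>
    rw [pow_succ, ih]
    rcases k with _ | k
    · simp
    · have e1 : k + 1 - 1 = k := rfl
      have e2 : k + 1 + 1 - 1 = k + 1 := rfl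
      rw [e1, e2, mul_add, add_mul, add_mul, ← pow_succ, hck (k + 1)]
      have e3 : ((k + 1 : ℕ) : R) * (Y * X ^ k) * X = ((k + 1 : ℕ) : R) * (Y * X ^ (k + 1)) := by
        rw [mul_assoc, mul_assoc, ← pow_succ]
      have e4 : ((k + 1 : ℕ) : R) * (Y * X ^ k) * Y = 0 := by
        rw [mul_assoc, mul_assoc, hck k, ← mul_assoc Y Y, hY, zero_mul, mul_zero]
      rw [e3, e4]
      push_cast
      noncomm_ring

/-- the action of the powers of `q' + w t` -/
theorem act (w : ι → K) (a : ι) (S : Finset ι) (ha : a ∉ S) (j : ℕ) (u u' : St ι → K) :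
    (qS w (insert a S) ^ j).mulVec (u + (xc K a).mulVec u') =
      (qS w S ^ j).mulVec u + (xc K a).mulVec ((qS w S ^ j).mulVec u' +
        ((j : K) * w a) • (qS w S ^ (j - 1)).mulVec u) := by
  have h1 : qS w (insert a S) = qS w S + w a • xc K a := by
    unfold qS
    rw [Finset.sum_insert ha, add_comm]
  have hcA : qS w S * xc K a = xc K a * qS w S := by
    unfold qS
    rw [Finset.sum_mul, Finset.mul_sum]
    refine Finset.sum_congr rfl fun c _ => ?_
    rw [smul_mul_assoc, mul_smul_comm, xc_comm]
  have hc : qS w S * (w a • xc K a) = (w a • xc K a) * qS w S := by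
    rw [mul_smul_comm, smul_mul_assoc, hcA]
  have hY : (w a • xc K a) * (w a • xc K a) = 0 := by
    rw [smul_mul_smul_comm, xc_sq, smul_zero]
  have hcp : ∀ i : ℕ, qS w S ^ i * xc K a = xc K a * qS w S ^ i := fun i => by
    have : Commute (qS w S) (xc K a) := hcA
    exact this.pow_left i
  have h2 : qS w (insert a S) ^ j = qS w S ^ j + ((j : K) * w a) • (xc K a * qS w S ^ (j - 1)) := by
    rw [h1, pow_sum _ _ hc hY, smul_mul_assoc]
    congr 1
    rw [← nsmul_eq_mul, ← smul_smul, Nat.cast_smul_eq_nsmul]
  rw [h2, Matrix.add_mulVec, Matrix.mulVec_add, Matrix.smul_mulVec, Matrix.mulVec_add]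
  have h3 : (qS w S ^ j).mulVec ((xc K a).mulVec u') = (xc K a).mulVec ((qS w S ^ j).mulVec u') := by
    rw [Matrix.mulVec_mulVec, hcp, Matrix.mulVec_mulVec]
  have h4 : (xc K a * qS w S ^ (j - 1)).mulVec ((xc K a).mulVec u') = 0 := by
    rw [Matrix.mulVec_mulVec, mul_assoc, hcp, ← mul_assoc, xc_sq, zero_mul, Matrix.zero_mulVec]
  rw [h3, h4, add_zero, Matrix.mulVec_add (xc K a), Matrix.mulVec_smul, ← Matrix.mulVec_mulVec]
  abel

theorem rk (p : ℕ) [hp : Fact p.Prime] [CharP K p] (w : ι → K) (hw : ∀ c, w c ≠ 0)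
    (S : Finset ι) : ∀ k : ℕ, k ≤ p → ∀ (d : ℤ) (v : St ι → K), HomV sdeg d v → Supp S v →
    (qS w S ^ k).mulVec v = 0 → (k : ℤ) - 1 < (S.card : ℤ) - 2 * d →
    ∃ x : St ι → K, HomV sdeg (d - p + k) x ∧ Supp S x ∧ v = (qS w S ^ (p - k)).mulVec x := by
  have triv : ∀ (S : Finset ι) (d : ℤ) (v : St ι → K) (k : ℕ), v = 0 →
      ∃ x : St ι → K, HomV sdeg (d - p + k) x ∧ Supp S x ∧ v = (qS w S ^ (p - k)).mulVec x :=
    fun S d v k h => ⟨0, homV_zero _, supp_zero S, by rw [h, Matrix.mulVec_zero]⟩
  have top : ∀ (S : Finset ι) (d : ℤ) (v : St ι → K), HomV sdeg d v → Supp S v →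
      ∃ x : St ι → K, HomV sdeg (d - p + p) x ∧ Supp S x ∧ v = (qS w S ^ (p - p)).mulVec x :=
    fun S d v h h' => ⟨v, by rwa [sub_add_cancel], h', by
      rw [Nat.sub_self, pow_zero, Matrix.one_mulVec]⟩
  induction S using Finset.induction_on with
  | empty =>
    intro k hk d v hv hs h0 hd
    rcases Nat.eq_zero_or_pos k with rfl | hk0
    · rw [pow_zero, Matrix.one_mulVec] at h0
      exact triv _ d v 0 h0
    · refine triv _ d v k (neg_zero' d ?_ v hv)
      rw [Finset.card_empty] at hd
      omega
  | insert a S ha ih =>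
    intro k hk d v hv hs h0 hd
    rw [Finset.card_insert_of_notMem ha] at hd
    rcases Nat.eq_zero_or_pos k with rfl | hk0
    · rw [pow_zero, Matrix.one_mulVec] at h0
      exact triv _ d v 0 h0
    rcases eq_or_lt_of_le hk with rfl | hkp
    · exact top _ d v hv hs
    -- the two parts
    obtain ⟨v0, hv0⟩ : ∃ v0, v0 = p0 a v := ⟨_, rfl⟩
    obtain ⟨v1, hv1⟩ : ∃ v1, v1 = p1 a v := ⟨_, rfl⟩
    have hvs : v = v0 + (xc K a).mulVec v1 := by rw [hv0, hv1]; exact split a v
    have s0 : Supp S v0 := by rw [hv0]; exact supp_p0 a S v hs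
    have s1 : Supp S v1 := by rw [hv1]; exact supp_p1 a S v hs
    have d0 : HomV sdeg d v0 := by rw [hv0]; exact homV_p0 a d v hv
    have d1 : HomV sdeg (d - 1) v1 := by rw [hv1]; exact homV_p1 a d v hv
    rw [hvs, act w a S ha] at h0
    obtain ⟨e1, e2⟩ := uniq a S ha _ _ (supp_pow w S k v0 s0)
      (supp_add S _ _ (supp_pow w S k v1 s1) (supp_smul S _ _ (supp_pow w S (k - 1) v0 s0))) h0
    -- constants
    have hkK : (k : K) ≠ 0 := by
      intro h
      have := (CharP.cast_eq_zero_iff K p k).1 h
      exact absurd (Nat.le_of_dvd hk0 this) (by omega)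
    obtain ⟨r, hr⟩ : ∃ r, r = p - k := ⟨_, rfl⟩
    have hrK : (r : K) = - (k : K) := by
      have h1 : ((r + k : ℕ) : K) = 0 := by
        have : r + k = p := by omega
        rw [this]
        exact CharP.cast_eq_zero K p
      push_cast at h1
      exact eq_neg_of_add_eq_zero_left h1
    have hrK0 : (r : K) ≠ 0 := by
      rw [hrK]
      exact neg_ne_zero.2 hkK
    have hwa := hw a
    -- the part v1
    have e3 : (qS w S ^ (k + 1)).mulVec v1 = 0 := by
      have e4 : (qS w S ^ k).mulVec v1 = - (((k : K) * w a) • (qS w S ^ (k - 1)).mulVec v0) :=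
        eq_neg_of_add_eq_zero_left e2
      have e5 : qS w S * qS w S ^ (k - 1) = qS w S ^ k := by
        rw [← pow_succ']
        congr 1
        omega
      rw [pow_succ', ← Matrix.mulVec_mulVec, e4, Matrix.mulVec_neg, Matrix.mulVec_smul,
        Matrix.mulVec_mulVec, e5, e1, smul_zero, neg_zero]
    obtain ⟨y, yd, ys, hy⟩ := ih (k + 1) (by omega) (d - 1) v1 d1 s1 e3 (by push_cast at hd ⊢; omega)
    have er1 : p - (k + 1) = r - 1 := by omega
    rw [er1] at hy
    obtain ⟨x0, hx0⟩ : ∃ x0, x0 = ((r : K) * w a)⁻¹ • y := ⟨_, rfl⟩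
    have hxy : ((r : K) * w a) • x0 = y := by
      rw [hx0, smul_smul, mul_inv_cancel₀ (mul_ne_zero hrK0 hwa), one_smul]
    have x0s : Supp S x0 := by rw [hx0]; exact supp_smul S _ _ ys
    have x0d : HomV sdeg (d - p + k) x0 := by
      rw [hx0]
      have := homV_smul _ ((r : K) * w a)⁻¹ _ yd
      have e : d - 1 - p + ((k + 1 : ℕ) : ℤ) = d - p + k := by push_cast; ring
      rwa [e] at this
    -- the part v0
    obtain ⟨z, hz⟩ : ∃ z, z = v0 - (qS w S ^ r).mulVec x0 := ⟨_, rfl⟩
    have zs : Supp S z := by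
      rw [hz, sub_eq_add_neg, ← neg_one_smul K]
      exact supp_add S _ _ s0 (supp_smul S _ _ (supp_pow w S r x0 x0s))
    have zd : HomV sdeg d z := by
      rw [hz, sub_eq_add_neg, ← neg_one_smul K]
      refine homV_add d _ _ d0 (homV_smul _ _ _ ?_)
      have := homV_pow w S r _ x0 x0d
      have e : d - p + k + r = d := by omega
      rwa [e] at this
    have e6 : (qS w S ^ (k - 1)).mulVec z = 0 := by
      have e7 : (qS w S ^ (k - 1)).mulVec ((qS w S ^ r).mulVec x0) =
          (qS w S ^ (p - 1)).mulVec x0 := by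
        rw [Matrix.mulVec_mulVec, ← pow_add]
        congr 2
        omega
      have e8 : (qS w S ^ k).mulVec v1 = ((r : K) * w a) • (qS w S ^ (p - 1)).mulVec x0 := by
        rw [hy, Matrix.mulVec_mulVec, ← pow_add, ← Matrix.mulVec_smul, hxy]
        congr 2
        omega
      rw [e8, hrK] at e2
      have e9 : ((k : K) * w a) • ((qS w S ^ (k - 1)).mulVec v0 -
          (qS w S ^ (p - 1)).mulVec x0) = 0 := by
        rw [smul_sub, ← e2, sub_eq_add_neg, add_comm]
        congr 1
        rw [neg_mul, neg_smul]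
      have e10 := (smul_eq_zero.1 e9).resolve_left (mul_ne_zero hkK hwa)
      rw [hz, Matrix.mulVec_sub, e7]
      exact e10
    obtain ⟨s, sd, ss, hsz⟩ := ih (k - 1) (by omega) d z zd zs e6 (by
      have : ((k - 1 : ℕ) : ℤ) = (k : ℤ) - 1 := by omega
      rw [this]
      push_cast at hd
      omega)
    have er2 : p - (k - 1) = r + 1 := by omega
    rw [er2] at hsz
    have er3 : p - k = r := hr.symm
    rw [er3]
    refine ⟨(x0 + (qS w S).mulVec s) + (xc K a).mulVec ((-((r : K) * w a)) • s), ?_, ?_, ?_⟩
    · have sd' : HomV sdeg (d - p + k - 1) s := by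
        have e : d - p + ((k - 1 : ℕ) : ℤ) = d - p + k - 1 := by omega
        rwa [e] at sd
      refine homV_add _ _ _ (homV_add _ _ _ x0d ?_) ?_
      · have := homV_qS w S _ s sd'
        rwa [sub_add_cancel] at this
      · have := homV_xc a _ _ (homV_smul _ (-((r : K) * w a)) _ sd')
        rwa [sub_add_cancel] at this
    · refine supp_add _ _ _ (supp_add _ _ _ ?_ ?_) ?_
      · exact supp_mono S _ (Finset.subset_insert a S) _ x0s
      · exact supp_mono S _ (Finset.subset_insert a S) _ (supp_qS w S s ss)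
      · exact supp_xc a _ (Finset.mem_insert_self a S) _
          (supp_mono S _ (Finset.subset_insert a S) _ (supp_smul S _ _ ss))
    · rw [act w a S ha, hvs]
      have f1 : (qS w S ^ r).mulVec (x0 + (qS w S).mulVec s) = v0 := by
        rw [Matrix.mulVec_add, Matrix.mulVec_mulVec (v := s), ← pow_succ, ← hsz, hz]
        abel
      have f2 : (qS w S ^ (r - 1)).mulVec (x0 + (qS w S).mulVec s) =
          (qS w S ^ (r - 1)).mulVec x0 + (qS w S ^ r).mulVec s := by
        rw [Matrix.mulVec_add, Matrix.mulVec_mulVec (v := s), ← pow_succ]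
        congr 3
        omega
      have f3 : (qS w S ^ r).mulVec ((-((r : K) * w a)) • s) +
          ((r : K) * w a) • (qS w S ^ (r - 1)).mulVec (x0 + (qS w S).mulVec s) = v1 := by
        have f4 : ((r : K) * w a) • (qS w S ^ (r - 1)).mulVec x0 = v1 := by
          rw [← Matrix.mulVec_smul, hxy, ← hy]
        rw [f2, Matrix.mulVec_smul, smul_add, neg_smul, f4]
        abel
      rw [f1, f3]

end

theorem rk1 : RK1Stmt := by
  intro p _ K _ _ ι _ _ w hw k hk d v hv h0 hd
  have hq : mu w = qS w Finset.univ := rfl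
  rw [hq] at h0 ⊢
  obtain ⟨x, hx, -, hx'⟩ := rk p w hw Finset.univ k hk d v hv (fun s _ c _ => Finset.mem_univ c) h0
    (by rwa [Finset.card_univ])
  exact ⟨x, hx, hx'⟩

end Pool.Agent.ABCP.H94
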